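import Mathlib

set_option autoImplicit false

namespace Pool.Agent.Results.MP_d0f9b4_an.SmallProducts

open Set Filter Topology Metric

/-- logarithmic derivative `z f'(z) / f(z)` -/
noncomputable def gg (f : ℂ → ℂ) (z : ℂ) : ℂ := z * deriv f z / f z

theorem an {f : ℂ → ℂ} (hf : Differentiable ℂ f) (z : ℂ) : AnalyticAt ℂ f z := hf.analyticAt z

theorem gg_an {f : ℂ → ℂ} (hf : Differentiable ℂ f) {z : ℂ} (hz : f z ≠ 0) :
    AnalyticAt ℂ (gg f) z :=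
  (analyticAt_id.mul (an hf z).deriv).div (an hf z) hz

theorem gg_cont {f : ℂ → ℂ} (hf : Differentiable ℂ f) {z : ℂ} (hz : f z ≠ 0) :
    ContinuousAt (gg f) z := (gg_an hf hz).continuousAt

/-- local normal form of a nonconstant analytic function -/
theorem root (G : ℂ → ℂ) (z0 : ℂ) (hG : AnalyticAt ℂ G z0) (h0 : G z0 = 0)
    (hne : ¬ ∀ᶠ z in 𝓝 z0, G z = 0) :
    ∃ e : ℕ, 1 ≤ e ∧ ∃ φ ψ : ℂ → ℂ, AnalyticAt ℂ φ z0 ∧ AnalyticAt ℂ ψ 0 ∧ φ z0 = 0 ∧ ψ 0 = z0 ∧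
    (∀ᶠ z in 𝓝 z0, ψ (φ z) = z) ∧ (∀ᶠ u in 𝓝 (0 : ℂ), φ (ψ u) = u) ∧
    (∀ᶠ z in 𝓝 z0, G z = φ z ^ e) := by
  obtain ⟨e, H, hH, hH0, hGH⟩ := hG.exists_eventuallyEq_pow_smul_nonzero_iff.mpr hne
  have he : 1 ≤ e := by
    rcases Nat.eq_zero_or_pos e with h | h
    · subst h
      have h1 := hGH.self_of_nhds
      rw [h0, pow_zero, one_smul] at h1
      exact absurd h1.symm hH0
    · exact h
  have he0 : (e : ℂ) ≠ 0 := by
    have : e ≠ 0 := by omega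
    exact_mod_cast this
  obtain ⟨c, hc⟩ := IsAlgClosed.exists_pow_nat_eq (H z0) he
  have hc0 : c ≠ 0 := by
    rintro rfl
    rw [zero_pow (by omega)] at hc
    exact hH0 hc.symm
  set h : ℂ → ℂ := fun z => c * Complex.exp (Complex.log (H z / H z0) / e) with hdef
  have hh : AnalyticAt ℂ h z0 := by
    have h1 : AnalyticAt ℂ (fun z => H z / H z0) z0 := hH.div analyticAt_const hH0
    have h2 : H z0 / H z0 ∈ Complex.slitPlane := by
      rw [div_self hH0]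
      exact Complex.one_mem_slitPlane
    exact analyticAt_const.mul (((h1.clog h2).div analyticAt_const he0).cexp)
  have hz0 : h z0 = c := by
    rw [hdef]
    simp only [div_self hH0, Complex.log_one, zero_div, Complex.exp_zero, mul_one]
  have hpow : ∀ᶠ z in 𝓝 z0, h z ^ e = H z := by
    filter_upwards [hH.continuousAt.eventually_ne hH0] with z hz
    rw [hdef]
    simp only
    rw [mul_pow, hc, ← Complex.exp_nat_mul, mul_div_cancel₀ _ he0,
      Complex.exp_log (div_ne_zero hz hH0)]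
    field_simp
  set φ : ℂ → ℂ := fun z => (z - z0) * h z with hφ
  have hφa : AnalyticAt ℂ φ z0 := (analyticAt_id.sub analyticAt_const).mul hh
  have hφd : HasDerivAt φ (h z0) z0 := by
    have k := ((hasDerivAt_id z0).sub_const z0).mul hh.differentiableAt.hasDerivAt
    refine k.congr_deriv ?_
    simp
  have hφ0 : φ z0 = 0 := by
    rw [hφ]; simp
  have hd : deriv φ z0 ≠ 0 := by
    rw [hφd.deriv, hz0]
    exact hc0
  refine ⟨e, he, φ, hφa.hasStrictDerivAt.localInverse _ _ _ hd, hφa, ?_, hφ0, ?_, ?_, ?_, ?_⟩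
  · have k := hφa.analyticAt_localInverse hd
    rwa [hφ0] at k
  · have k := (HasStrictDerivAt.eventually_left_inverse hφa.hasStrictDerivAt hd).self_of_nhds
    rwa [hφ0] at k
  · exact HasStrictDerivAt.eventually_left_inverse hφa.hasStrictDerivAt hd
  · have k := HasStrictDerivAt.eventually_right_inverse hφa.hasStrictDerivAt hd
    rwa [hφ0] at k
  · filter_upwards [hGH, hpow] with z h1 h2
    rw [h1, hφ, smul_eq_mul]
    simp only
    rw [mul_pow, h2]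

/-- factoring out the zero at the origin -/
theorem factor {f : ℂ → ℂ} (hf : Differentiable ℂ f) (hne0 : ∃ z, f z ≠ 0) :
    ∃ (m : ℕ) (h : ℂ → ℂ), Differentiable ℂ h ∧ h 0 ≠ 0 ∧ ∀ z, f z = z ^ m * h z := by
  have hA : AnalyticAt ℂ f 0 := hf.analyticAt 0
  have hne : ¬ ∀ᶠ z in 𝓝 (0 : ℂ), f z = 0 := by
    intro h
    obtain ⟨z1, hz1⟩ := hne0
    apply hz1
    have h1 : AnalyticOnNhd ℂ f Set.univ := fun z _ => hf.analyticAt z
    have h2 : AnalyticOnNhd ℂ (fun _ : ℂ => (0 : ℂ)) Set.univ := fun z _ => analyticAt_const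
    have h3 := h1.eq_of_eventuallyEq h2 (z₀ := 0) h
    rw [h3]
  obtain ⟨k, h, hh, hh0, hev⟩ := hA.exists_eventuallyEq_pow_smul_nonzero_iff.mpr hne
  have hev' : ∀ᶠ z in 𝓝 (0 : ℂ), f z = z ^ k * h z := by
    filter_upwards [hev] with z hz
    rw [hz, sub_zero, smul_eq_mul]
  classical
  set g0 : ℂ → ℂ := fun z => if z = 0 then h 0 else f z / z ^ k with hg0
  have hg00 : g0 0 = h 0 := by rw [hg0]; exact if_pos rfl
  have hg0z : ∀ z, z ≠ 0 → g0 z = f z / z ^ k := fun z hz => by rw [hg0]; exact if_neg hz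
  have hd0 : Differentiable ℂ g0 := by
    intro z
    by_cases hz : z = 0
    · subst hz
      apply hh.differentiableAt.congr_of_eventuallyEq
      filter_upwards [hev'] with w hw
      by_cases hw0 : w = 0
      · rw [hw0, hg00]
      · rw [hg0z w hw0, hw, mul_div_cancel_left₀ _ (pow_ne_zero k hw0)]
    · have h1 : DifferentiableAt ℂ (fun w => f w / w ^ k) z :=
        (hf z).div (differentiableAt_id.pow k) (pow_ne_zero k hz)
      apply h1.congr_of_eventuallyEq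
      filter_upwards [isOpen_ne.mem_nhds hz] with w hw
      exact hg0z w hw
  refine ⟨k, g0, hd0, by rw [hg00]; exact hh0, fun z => ?_⟩
  by_cases hz : z = 0
  · subst hz
    rw [hg00, hev'.self_of_nhds]
  · rw [hg0z z hz]
    have := pow_ne_zero k hz
    field_simp

/-- not a monomial -/
def NM (f : ℂ → ℂ) : Prop := ¬ ∃ (c : ℂ) (m : ℕ), ∀ z, f z = c * z ^ m

theorem NM.ne {f : ℂ → ℂ} (h : NM f) : ∃ z, f z ≠ 0 := by
  by_contra hcon
  push Not at hcon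
  exact h ⟨0, 0, fun z => by rw [hcon z]; ring⟩

/-- a function with constant `z f'/f` is a monomial -/
theorem NM.no_euler {f : ℂ → ℂ} (hf : Differentiable ℂ f) (h : NM f) (a : ℂ) :
    ¬ ∀ z, z * deriv f z = a * f z := by
  intro hE
  obtain ⟨m, g, hg, hg0, hfg⟩ := factor hf h.ne
  have hgd : Continuous (deriv g) := (hg.contDiff (n := 1)).continuous_deriv le_rfl
  have hder : ∀ z, deriv f z = m * z ^ (m - 1) * g z + z ^ m * deriv g z := by
    intro z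
    have h1 : HasDerivAt (fun z => z ^ m * g z) (m * z ^ (m - 1) * g z + z ^ m * deriv g z) z :=
      (hasDerivAt_pow m z).mul (hg z).hasDerivAt
    have h2 : f = fun z => z ^ m * g z := funext hfg
    rw [h2]
    exact h1.deriv
  have hzm : ∀ z : ℂ, z * (m * z ^ (m - 1)) = m * z ^ m := by
    intro z
    rcases Nat.eq_zero_or_pos m with h0 | h0
    · simp [h0]
    · obtain ⟨n, rfl⟩ : ∃ n, m = n + 1 := ⟨m - 1, by omega⟩
      simp only [Nat.add_sub_cancel]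
      ring
  have hne : ∀ z : ℂ, z ≠ 0 → (m : ℂ) * g z + z * deriv g z = a * g z := by
    intro z hz
    have h1 := hE z
    rw [hder z, hfg z] at h1
    have h2 : z ^ m ≠ 0 := pow_ne_zero m hz
    apply mul_left_cancel₀ h2
    have h3 := hzm z
    linear_combination h1 - g z * h3
  have hall : (fun z : ℂ => (m : ℂ) * g z + z * deriv g z) = fun z => a * g z := by
    apply Continuous.ext_on (dense_compl_singleton (0 : ℂ))
    · exact (continuous_const.mul hg.continuous).add (continuous_id.mul hgd)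
    · exact continuous_const.mul hg.continuous
    · intro z hz
      exact hne z hz
  have ha : (m : ℂ) = a := by
    have h1 := congrFun hall 0
    simp only [zero_mul, add_zero] at h1
    exact mul_right_cancel₀ hg0 h1
  have hd0 : deriv g = fun _ => (0 : ℂ) := by
    apply Continuous.ext_on (dense_compl_singleton (0 : ℂ)) hgd continuous_const
    intro z hz
    have h1 := hne z hz
    rw [ha] at h1
    have h2 : z * deriv g z = 0 := by linear_combination h1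
    exact (mul_eq_zero.1 h2).resolve_left hz
  apply h
  refine ⟨g 0, m, fun z => ?_⟩
  have h1 := is_const_of_deriv_eq_zero hg (fun z => congrFun hd0 z) z 0
  rw [hfg z, h1]
  ring

theorem gg_not_const {f : ℂ → ℂ} (hf : Differentiable ℂ f) (h : NM f) {z1 : ℂ} (hz : f z1 ≠ 0)
    (a : ℂ) : ¬ ∀ᶠ z in 𝓝 z1, gg f z - a = 0 := by
  intro hev
  apply h.no_euler hf a
  have hfe : ∀ᶠ z in 𝓝 z1, f z ≠ 0 := hf.continuous.continuousAt.eventually_ne hz
  have hz : ∀ᶠ z in 𝓝 z1, z * deriv f z = a * f z := by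
    filter_upwards [hev, hfe] with z h hz
    have h' : z * deriv f z / f z = a := by
      unfold gg at h
      linear_combination h
    rw [div_eq_iff hz] at h'
    exact h'
  have hA : AnalyticOnNhd ℂ (fun z => z * deriv f z) univ := fun z _ =>
    analyticAt_id.mul (an hf z).deriv
  have hB : AnalyticOnNhd ℂ (fun z => a * f z) univ := fun z _ =>
    analyticAt_const.mul (an hf z)
  have := AnalyticOnNhd.eq_of_eventuallyEq hA hB hz
  intro z
  exact congrFun this z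

/-- local normal form at a point -/
def Loc (f : ℂ → ℂ) (z1 : ℂ) (val : ℂ → ℂ) : Prop :=
  ∃ (e : ℕ) (φ ψ : ℂ → ℂ) (ρ : ℝ), 1 ≤ e ∧ 0 < ρ ∧ ContinuousAt φ z1 ∧ φ z1 = 0 ∧ ψ 0 = z1 ∧
    (∀ᶠ z in 𝓝 z1, f z ≠ 0 → ψ (φ z) = z ∧ gg f z = val (φ z ^ e)) ∧
    ∀ u ∈ ball (0 : ℂ) ρ, DifferentiableAt ℂ ψ u ∧ φ (ψ u) = u ∧ ψ u ≠ 0 ∧
      (u ≠ 0 → f (ψ u) ≠ 0 ∧ gg f (ψ u) = val (u ^ e))

theorem locA {f : ℂ → ℂ} (hf : Differentiable ℂ f) (h : NM f) {z1 : ℂ} (hz0 : z1 ≠ 0)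
    (hz : f z1 ≠ 0) : Loc f z1 (fun τ => gg f z1 + τ) := by
  obtain ⟨e, he, φ, ψ, hφ, hψ, hφ0, hψ0, h1, h2, h3⟩ :=
    root (fun z => gg f z - gg f z1) z1 ((gg_an hf hz).sub analyticAt_const) (by simp)
      (gg_not_const hf h hz _)
  have hc : Tendsto ψ (𝓝 0) (𝓝 z1) := by
    have := hψ.continuousAt.tendsto
    rwa [hψ0] at this
  have hfe : ∀ᶠ z in 𝓝 z1, f z ≠ 0 := hf.continuous.continuousAt.eventually_ne hz
  have hze : ∀ᶠ z in 𝓝 z1, z ≠ 0 := isOpen_ne.mem_nhds hz0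
  have hP : ∀ᶠ u in 𝓝 (0 : ℂ), AnalyticAt ℂ ψ u ∧ φ (ψ u) = u ∧ f (ψ u) ≠ 0 ∧ ψ u ≠ 0 ∧
      gg f (ψ u) - gg f z1 = φ (ψ u) ^ e := by
    filter_upwards [hψ.eventually_analyticAt, h2, hc.eventually hfe, hc.eventually hze,
      hc.eventually h3] with u a b c d e
    exact ⟨a, b, c, d, e⟩
  obtain ⟨ρ, hρ, hball⟩ := Metric.eventually_nhds_iff_ball.1 hP
  refine ⟨e, φ, ψ, ρ, he, hρ, hφ.continuousAt, hφ0, hψ0, ?_, ?_⟩
  · filter_upwards [h1, h3] with z a b _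
    exact ⟨a, by linear_combination b⟩
  · intro u hu
    obtain ⟨a, b, c, d, e'⟩ := hball u hu
    refine ⟨a.differentiableAt, b, d, fun _ => ⟨c, ?_⟩⟩
    rw [b] at e'
    linear_combination e'

theorem locB {f : ℂ → ℂ} (hf : Differentiable ℂ f) (h : NM f) {z1 : ℂ} (hz0 : z1 ≠ 0)
    (hz : f z1 = 0) : Loc f z1 (fun τ => τ⁻¹) := by
  have hne : ¬ ∀ᶠ z in 𝓝 z1, f z = 0 := by
    intro hev
    obtain ⟨z2, hz2⟩ := h.ne
    apply hz2
    have h1 : AnalyticOnNhd ℂ f Set.univ := fun z _ => hf.analyticAt z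
    have h2 : AnalyticOnNhd ℂ (fun _ : ℂ => (0 : ℂ)) Set.univ := fun z _ => analyticAt_const
    have h3 := h1.eq_of_eventuallyEq h2 (z₀ := z1) hev
    rw [h3]
  obtain ⟨k, H, hH, hH0, hev⟩ := (an hf z1).exists_eventuallyEq_pow_smul_nonzero_iff.mpr hne
  have hk : k ≠ 0 := by
    rintro rfl
    have h1 := hev.self_of_nhds
    rw [hz, pow_zero, one_smul] at h1
    exact hH0 h1.symm
  have hkC : (k : ℂ) ≠ 0 := by exact_mod_cast hk
  -- the denominator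
  set D : ℂ → ℂ := fun z => z * (k * H z + (z - z1) * deriv H z) with hD
  have hDan : AnalyticAt ℂ D z1 :=
    analyticAt_id.mul ((analyticAt_const.mul hH).add
      ((analyticAt_id.sub analyticAt_const).mul hH.deriv))
  have hD1 : D z1 ≠ 0 := by
    rw [hD]
    simp only [sub_self, zero_mul, add_zero]
    exact mul_ne_zero hz0 (mul_ne_zero hkC hH0)
  set P : ℂ → ℂ := fun z => (z - z1) * H z / D z with hP
  have hPan : AnalyticAt ℂ P z1 :=
    ((analyticAt_id.sub analyticAt_const).mul hH).div hDan hD1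
  have hP1 : P z1 = 0 := by rw [hP]; simp
  have hHe : ∀ᶠ z in 𝓝 z1, H z ≠ 0 := hH.continuousAt.eventually_ne hH0
  have hDe : ∀ᶠ z in 𝓝 z1, D z ≠ 0 := hDan.continuousAt.eventually_ne hD1
  have hze : ∀ᶠ z in 𝓝 z1, z ≠ 0 := isOpen_ne.mem_nhds hz0
  -- `gg f z = (P z)⁻¹` off `z1`
  have hkey : ∀ᶠ z in 𝓝 z1, z ≠ z1 → f z ≠ 0 ∧ gg f z = (P z)⁻¹ ∧ P z ≠ 0 := by
    filter_upwards [hev.eventually_nhds, hHe, hDe, hH.eventually_analyticAt, hze]
      with z h1 h2 h3 h4 h5 hzz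
    have hsub : z - z1 ≠ 0 := sub_ne_zero.2 hzz
    have hfz : f z = (z - z1) ^ k * H z := by
      have := h1.self_of_nhds
      rwa [smul_eq_mul] at this
    have hd : deriv f z = k * (z - z1) ^ (k - 1) * H z + (z - z1) ^ k * deriv H z := by
      have h6 : f =ᶠ[𝓝 z] fun z => (z - z1) ^ k * H z := by
        filter_upwards [h1] with w hw
        rw [hw, smul_eq_mul]
      rw [h6.deriv_eq]
      have h7 : HasDerivAt (fun z => (z - z1) ^ k * H z)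
          (k * (z - z1) ^ (k - 1) * 1 * H z + (z - z1) ^ k * deriv H z) z :=
        (((hasDerivAt_id z).sub_const z1).pow k).mul h4.differentiableAt.hasDerivAt
      rw [h7.deriv]
      ring
    have hpk : (z - z1) ^ k = (z - z1) * (z - z1) ^ (k - 1) := by
      obtain ⟨n, rfl⟩ : ∃ n, k = n + 1 := ⟨k - 1, by omega⟩
      simp only [Nat.add_sub_cancel]
      ring
    have hpn : (z - z1) ^ (k - 1) ≠ 0 := pow_ne_zero _ hsub
    refine ⟨by rw [hfz]; exact mul_ne_zero (pow_ne_zero _ hsub) h2, ?_, ?_⟩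
    · have e1 : P z = (z - z1) * H z / D z := rfl
      rw [e1, inv_div]
      unfold gg
      rw [hd, hfz, hpk]
      have e2 : D z = z * (k * H z + (z - z1) * deriv H z) := rfl
      rw [e2]
      field_simp
    · exact div_ne_zero (mul_ne_zero hsub h2) h3
  have hPne : ¬ ∀ᶠ z in 𝓝 z1, P z = 0 := by
    intro hcon
    have h1 : ∀ᶠ z in 𝓝 z1, z = z1 := by
      filter_upwards [hcon, hkey] with z a b
      by_contra hzz
      exact (b hzz).2.2 a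
    have h2 : ({z1} : Set ℂ) ∈ 𝓝 z1 := h1
    exact (NormedField.nhdsNE_neBot z1).ne (by
      rw [nhdsWithin, inf_eq_bot_iff]
      exact ⟨{z1}, h2, {z1}ᶜ, mem_principal_self _, by simp⟩)
  obtain ⟨e, he, φ, ψ, hφ, hψ, hφ0, hψ0, h1, h2, h3⟩ := root P z1 hPan hP1 hPne
  have hc : Tendsto ψ (𝓝 0) (𝓝 z1) := by
    have := hψ.continuousAt.tendsto
    rwa [hψ0] at this
  have hPP : ∀ᶠ u in 𝓝 (0 : ℂ), AnalyticAt ℂ ψ u ∧ φ (ψ u) = u ∧ ψ u ≠ 0 ∧
      (ψ u ≠ z1 → f (ψ u) ≠ 0 ∧ gg f (ψ u) = (P (ψ u))⁻¹ ∧ P (ψ u) ≠ 0) ∧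
      P (ψ u) = φ (ψ u) ^ e := by
    filter_upwards [hψ.eventually_analyticAt, h2, hc.eventually hze, hc.eventually hkey,
      hc.eventually h3] with u a b c d e
    exact ⟨a, b, c, d, e⟩
  obtain ⟨ρ, hρ, hball⟩ := Metric.eventually_nhds_iff_ball.1 hPP
  refine ⟨e, φ, ψ, ρ, he, hρ, hφ.continuousAt, hφ0, hψ0, ?_, ?_⟩
  · filter_upwards [h1, h3, hkey] with z a b c hfz
    have hzz : z ≠ z1 := by
      rintro rfl
      exact hfz hz
    exact ⟨a, by rw [(c hzz).2.1, b]⟩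
  · intro u hu
    obtain ⟨a, b, c, d, e'⟩ := hball u hu
    refine ⟨a.differentiableAt, b, c, fun hu0 => ?_⟩
    have hne1 : ψ u ≠ z1 := by
      intro hcon
      rw [hcon, hφ0] at b
      exact hu0 b.symm
    obtain ⟨d1, d2, -⟩ := d hne1
    rw [b] at e'
    exact ⟨d1, by rw [d2, e']⟩



/-! ### discs in the curve -/

theorem countable_pow {C : Set ℂ} (hC : C.Countable) {n : ℕ} (hn : 0 < n) :
    {t : ℂ | t ^ n ∈ C}.Countable := by
  have h1 : {t : ℂ | t ^ n ∈ C} ⊆ ⋃ c ∈ C, {t : ℂ | t ^ n = c} := by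
    intro t ht
    simp only [mem_iUnion, mem_ofPred_eq]
    exact ⟨t ^ n, ht, rfl⟩
  refine (hC.biUnion fun c _ => ?_).mono h1
  apply Set.Finite.countable
  refine (Polynomial.nthRoots n c).toFinset.finite_toSet.subset ?_
  intro t ht
  simp only [Finset.mem_coe, Multiset.mem_toFinset]
  exact (Polynomial.mem_nthRoots hn).2 ht

theorem ball_diff {ρ : ℝ} (hρ : 0 < ρ) {C : Set ℂ} (hC : C.Countable) :
    IsPreconnected (ball (0 : ℂ) ρ \ C) := by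
  set h := OpenPartialHomeomorph.univBall (0 : ℂ) ρ with hh
  have hsrc : h.source = univ := OpenPartialHomeomorph.univBall_source _ _
  have htgt : h.target = ball (0 : ℂ) ρ := OpenPartialHomeomorph.univBall_target _ hρ
  have hinj : Function.Injective h := by
    intro a b hab
    exact h.injOn (by rw [hsrc]; exact mem_univ a) (by rw [hsrc]; exact mem_univ b) hab
  have hcont : Continuous h := OpenPartialHomeomorph.continuous_univBall _ _
  have heq : ball (0 : ℂ) ρ \ C = h '' (h ⁻¹' C)ᶜ := by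
    ext y
    constructor
    · rintro ⟨hy, hyC⟩
      rw [← htgt] at hy
      refine ⟨h.symm y, ?_, h.right_inv hy⟩
      intro hcon
      apply hyC
      have : h (h.symm y) ∈ C := hcon
      rwa [h.right_inv hy] at this
    · rintro ⟨u, hu, rfl⟩
      refine ⟨?_, hu⟩
      rw [← htgt]
      exact h.map_source (by rw [hsrc]; exact mem_univ u)
  rw [heq]
  have hc : (h ⁻¹' C).Countable := hC.preimage_of_injOn hinj.injOn
  have hr : 1 < Module.rank ℝ ℂ := by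
    rw [Complex.rank_real_complex]; norm_num
  exact (hc.isConnected_compl_of_one_lt_rank hr).isPreconnected.image _ hcont.continuousOn

/-- the image curve of the pair `f1, f2` -/
def J (f1 f2 : ℂ → ℂ) (m0 : ℂ) : Set (ℂ × ℂ) :=
  {q | q.1 ≠ 0 ∧ q.2 ≠ 0 ∧ q.2 ≠ m0 ∧ ∃ p : ℂ × ℂ, p.1 * p.2 = q.1 ∧
    (f1 p.1 ≠ 0 ∧ gg f1 p.1 = q.2) ∧ (f2 p.2 ≠ 0 ∧ gg f2 p.2 = q.2)}

/-- the pairs over `K` -/
def SS (f1 f2 : ℂ → ℂ) (K : Set (ℂ × ℂ)) : Set (ℂ × ℂ) :=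
  {p | f1 p.1 ≠ 0 ∧ f2 p.2 ≠ 0 ∧ gg f1 p.1 = gg f2 p.2 ∧ (p.1 * p.2, gg f1 p.1) ∈ K}

theorem disc {f1 f2 : ℂ → ℂ} (hf1 : Differentiable ℂ f1) (m0 : ℂ)
    {T : Set (ℂ × ℂ)} (hT : T.Countable) (x q : ℂ × ℂ) (val : ℂ → ℂ)
    (hval : Function.Injective val) (L1 : Loc f1 q.1 val) (L2 : Loc f2 q.2 val)
    (hq : q ∈ closure (SS f1 f2 (connectedComponentIn (J f1 f2 m0 \ T) x))) :
    ∃ γ1 γ2 : ℂ → ℂ, ∃ ρ : ℝ, 0 < ρ ∧ DifferentiableOn ℂ γ1 (ball 0 ρ) ∧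
      DifferentiableOn ℂ γ2 (ball 0 ρ) ∧ γ1 0 = q.1 ∧ γ2 0 = q.2 ∧
      (∀ t ∈ ball (0 : ℂ) ρ,
        (γ1 t, γ2 t) ∈ closure (SS f1 f2 (connectedComponentIn (J f1 f2 m0 \ T) x))) ∧
      ¬ ∀ᶠ t in 𝓝 (0 : ℂ), γ1 t = q.1 := by
  classical
  obtain ⟨e1, φ1, ψ1, ρ1, he1, hρ1, hφ1c, hφ1, hψ1, hn1, hb1⟩ := L1
  obtain ⟨e2, φ2, ψ2, ρ2, he2, hρ2, hφ2c, hφ2, hψ2, hn2, hb2⟩ := L2
  set K := connectedComponentIn (J f1 f2 m0 \ T) x with hK
  set ρ : ℝ := min (min ρ1 ρ2) 1 with hρ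
  have hρ0 : 0 < ρ := lt_min (lt_min hρ1 hρ2) one_pos
  have hρ1' : ρ ≤ ρ1 := (min_le_left _ _).trans (min_le_left _ _)
  have hρ2' : ρ ≤ ρ2 := (min_le_left _ _).trans (min_le_right _ _)
  have hρ3' : ρ ≤ 1 := min_le_right _ _
  -- a nearby point of `SS`
  have hU : {p : ℂ × ℂ | (f1 p.1 ≠ 0 → ψ1 (φ1 p.1) = p.1 ∧ gg f1 p.1 = val (φ1 p.1 ^ e1)) ∧
      (f2 p.2 ≠ 0 → ψ2 (φ2 p.2) = p.2 ∧ gg f2 p.2 = val (φ2 p.2 ^ e2)) ∧
      ‖φ1 p.1‖ < ρ ^ e2} ∈ 𝓝 q := by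
    have ha : ∀ᶠ p : ℂ × ℂ in 𝓝 q,
        (f1 p.1 ≠ 0 → ψ1 (φ1 p.1) = p.1 ∧ gg f1 p.1 = val (φ1 p.1 ^ e1)) :=
      (continuous_fst.tendsto q).eventually hn1
    have hb : ∀ᶠ p : ℂ × ℂ in 𝓝 q,
        (f2 p.2 ≠ 0 → ψ2 (φ2 p.2) = p.2 ∧ gg f2 p.2 = val (φ2 p.2 ^ e2)) :=
      (continuous_snd.tendsto q).eventually hn2
    have hc : ∀ᶠ z in 𝓝 q.1, ‖φ1 z‖ < ρ ^ e2 := by
      have h1 : Tendsto (fun z => ‖φ1 z‖) (𝓝 q.1) (𝓝 0) := by
        have h2 := hφ1c.tendsto.norm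
        rwa [hφ1, norm_zero] at h2
      exact h1.eventually (gt_mem_nhds (pow_pos hρ0 e2))
    have hc' : ∀ᶠ p : ℂ × ℂ in 𝓝 q, ‖φ1 p.1‖ < ρ ^ e2 :=
      (continuous_fst.tendsto q).eventually hc
    filter_upwards [ha, hb, hc'] with p a b c
    exact ⟨a, b, c⟩
  obtain ⟨⟨z, w⟩, ⟨hz1, hw1, hzρ⟩, hfz, hfw, hgg, hKm⟩ := mem_closure_iff_nhds.1 hq _ hU
  simp only at hz1 hw1 hzρ hfz hfw hgg hKm
  obtain ⟨hz2, hz3⟩ := hz1 hfz
  obtain ⟨hw2, hw3⟩ := hw1 hfw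
  have hpow : φ1 z ^ e1 = φ2 w ^ e2 := hval (by rw [← hz3, ← hw3, hgg])
  obtain ⟨t0, ht0⟩ := IsAlgClosed.exists_pow_nat_eq (φ1 z) (n := e2) (by omega)
  have ht0ρ : ‖t0‖ < ρ := by
    have h1 : ‖t0‖ ^ e2 < ρ ^ e2 := by
      rw [← norm_pow, ht0]
      exact hzρ
    exact lt_of_pow_lt_pow_left₀ e2 hρ0.le h1
  obtain ⟨ω, hω, hωt⟩ : ∃ ω : ℂ, ω ^ e2 = 1 ∧ φ2 w = ω * t0 ^ e1 := by
    by_cases h0 : t0 = 0
    · refine ⟨1, one_pow _, ?_⟩
      rw [h0, zero_pow (by omega)] at ht0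
      rw [h0, zero_pow (by omega), mul_zero]
      rw [← ht0, zero_pow (by omega)] at hpow
      exact pow_eq_zero_iff (by omega) |>.1 hpow.symm
    · have h1 : t0 ^ e1 ≠ 0 := pow_ne_zero _ h0
      refine ⟨φ2 w / t0 ^ e1, ?_, by field_simp⟩
      rw [div_pow, ← hpow, ← ht0, ← pow_mul, ← pow_mul, mul_comm e2 e1]
      exact div_self (pow_ne_zero _ h0)
  have hωn : ‖ω‖ = 1 := by
    have hn : ‖ω‖ ^ e2 = 1 := by rw [← norm_pow, hω, norm_one]
    exact (pow_eq_one_iff_of_nonneg (norm_nonneg _) (by omega)).1 hn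
  have hm1 : ∀ t ∈ ball (0 : ℂ) ρ, t ^ e2 ∈ ball (0 : ℂ) ρ1 := by
    intro t ht
    rw [mem_ball_zero_iff] at ht ⊢
    rw [norm_pow]
    calc ‖t‖ ^ e2 ≤ ‖t‖ ^ 1 := pow_le_pow_of_le_one (norm_nonneg _) (ht.le.trans hρ3') he2
      _ = ‖t‖ := pow_one _
      _ < ρ := ht
      _ ≤ ρ1 := hρ1'
  have hm2 : ∀ t ∈ ball (0 : ℂ) ρ, ω * t ^ e1 ∈ ball (0 : ℂ) ρ2 := by
    intro t ht
    rw [mem_ball_zero_iff] at ht ⊢
    rw [norm_mul, hωn, one_mul, norm_pow]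
    calc ‖t‖ ^ e1 ≤ ‖t‖ ^ 1 := pow_le_pow_of_le_one (norm_nonneg _) (ht.le.trans hρ3') he1
      _ = ‖t‖ := pow_one _
      _ < ρ := ht
      _ ≤ ρ2 := hρ2'
  set γ1 : ℂ → ℂ := fun t => ψ1 (t ^ e2) with hγ1
  set γ2 : ℂ → ℂ := fun t => ψ2 (ω * t ^ e1) with hγ2
  have hd1 : ∀ t ∈ ball (0 : ℂ) ρ, DifferentiableAt ℂ γ1 t := by
    intro t ht
    have hin : DifferentiableAt ℂ (fun u : ℂ => u ^ e2) t := by fun_prop
    exact (hb1 _ (hm1 t ht)).1.comp t hin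
  have hd2 : ∀ t ∈ ball (0 : ℂ) ρ, DifferentiableAt ℂ γ2 t := by
    intro t ht
    have hin : DifferentiableAt ℂ (fun u : ℂ => ω * u ^ e1) t := by fun_prop
    exact (hb2 _ (hm2 t ht)).1.comp t hin
  have hωne : ω ≠ 0 := by
    intro h0
    rw [h0, norm_zero] at hωn
    exact zero_ne_one hωn
  -- the curve is in the set away from `0`
  have hcur : ∀ t ∈ ball (0 : ℂ) ρ, t ≠ 0 → f1 (γ1 t) ≠ 0 ∧ f2 (γ2 t) ≠ 0 ∧
      gg f1 (γ1 t) = val (t ^ (e1 * e2)) ∧ gg f2 (γ2 t) = val (t ^ (e1 * e2)) ∧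
      γ1 t ≠ 0 ∧ γ2 t ≠ 0 := by
    intro t ht h0
    obtain ⟨-, -, a3, a4⟩ := hb1 _ (hm1 t ht)
    obtain ⟨-, -, b3, b4⟩ := hb2 _ (hm2 t ht)
    obtain ⟨a5, a6⟩ := a4 (pow_ne_zero _ h0)
    obtain ⟨b5, b6⟩ := b4 (mul_ne_zero hωne (pow_ne_zero _ h0))
    refine ⟨a5, b5, ?_, ?_, a3, b3⟩
    · rw [hγ1]
      simp only
      rw [a6, ← pow_mul, mul_comm e2 e1]
    · rw [hγ2]
      simp only
      rw [b6, mul_pow, hω, one_mul, ← pow_mul]
  -- the good parameters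
  set D : Set ℂ := {t | t ∈ ball (0 : ℂ) ρ ∧ f1 (γ1 t) ≠ 0 ∧ f2 (γ2 t) ≠ 0 ∧
    gg f1 (γ1 t) = gg f2 (γ2 t) ∧ (γ1 t * γ2 t, gg f1 (γ1 t)) ∈ J f1 f2 m0 \ T} with hD
  set C : Set ℂ := {0, m0} ∪ Prod.snd '' T with hC
  have hCc : C.Countable := by
    refine Set.Countable.union ?_ (hT.image _)
    exact (Set.Finite.insert _ (Set.finite_singleton _)).countable
  set B : Set ℂ := {0} ∪ {t | t ^ (e1 * e2) ∈ val ⁻¹' C} with hB
  have hBc : B.Countable :=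
    (Set.countable_singleton _).union
      (countable_pow (hCc.preimage_of_injOn hval.injOn) (Nat.mul_pos (by omega) (by omega)))
  have hsub : ball (0 : ℂ) ρ \ B ⊆ D := by
    rintro t ⟨ht, htB⟩
    have h0 : t ≠ 0 := fun h => htB (Or.inl h)
    have hv : val (t ^ (e1 * e2)) ∉ C := fun h => htB (Or.inr h)
    obtain ⟨a1, a2, a3, a4, a5, a6⟩ := hcur t ht h0
    refine ⟨ht, a1, a2, by rw [a3, a4], ⟨⟨mul_ne_zero a5 a6, ?_, ?_, ?_⟩, ?_⟩⟩
    · intro hcon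
      apply hv
      rw [← a3]
      exact Or.inl (Or.inl hcon)
    · intro hcon
      apply hv
      rw [← a3]
      exact Or.inl (Or.inr hcon)
    · exact ⟨(γ1 t, γ2 t), rfl, ⟨a1, rfl⟩, ⟨a2, by simp only; rw [a3, a4]⟩⟩
    · intro hcon
      apply hv
      rw [← a3]
      exact Or.inr ⟨_, hcon, rfl⟩
  have hDeq : D = ball (0 : ℂ) ρ \ (B \ D) := by
    ext t
    constructor
    · intro ht
      exact ⟨ht.1, fun h => h.2 ht⟩
    · rintro ⟨ht, h⟩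
      by_contra hcon
      have hB' : t ∈ B := by
        by_contra hB'
        exact hcon (hsub ⟨ht, hB'⟩)
      exact h ⟨hB', hcon⟩
  have hDpre : IsPreconnected D := by
    rw [hDeq]
    exact ball_diff hρ0 (hBc.mono sdiff_subset)
  have hDden : ball (0 : ℂ) ρ ⊆ closure D := by
    have h1 : Dense ((B \ D)ᶜ : Set ℂ) := (hBc.mono sdiff_subset).dense_compl ℝ
    have h2 := h1.open_subset_closure_inter (isOpen_ball (x := (0 : ℂ)) (ε := ρ))
    have h3 : ball (0 : ℂ) ρ ∩ (B \ D)ᶜ = D := by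
      rw [← sdiff_eq]
      exact hDeq.symm
    rwa [h3] at h2
  have ht0D : t0 ∈ D := by
    have e1' : γ1 t0 = z := by
      rw [hγ1]; simp only; rw [ht0, hz2]
    have e2' : γ2 t0 = w := by
      rw [hγ2]; simp only; rw [← hωt, hw2]
    refine ⟨by rwa [mem_ball_zero_iff], ?_, ?_, ?_, ?_⟩
    · rw [e1']; exact hfz
    · rw [e2']; exact hfw
    · rw [e1', e2']; exact hgg
    · rw [e1', e2']
      exact connectedComponentIn_subset _ _ hKm
  have hcontΨ : ContinuousOn (fun t => (γ1 t * γ2 t, gg f1 (γ1 t))) D := by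
    intro t ht
    have c1 : ContinuousAt γ1 t := (hd1 t ht.1).continuousAt
    have c2 : ContinuousAt γ2 t := (hd2 t ht.1).continuousAt
    have c3 : ContinuousAt (gg f1) (γ1 t) := gg_cont hf1 ht.2.1
    exact ((c1.mul c2).prodMk (ContinuousAt.comp (f := γ1) c3 c1)).continuousWithinAt
  have himg : (fun t => (γ1 t * γ2 t, gg f1 (γ1 t))) '' D ⊆ K := by
    have h1 : IsPreconnected ((fun t => (γ1 t * γ2 t, gg f1 (γ1 t))) '' D) :=
      hDpre.image _ hcontΨ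
    have h2 : (z * w, gg f1 z) ∈ (fun t => (γ1 t * γ2 t, gg f1 (γ1 t))) '' D := by
      refine ⟨t0, ht0D, ?_⟩
      have e1' : γ1 t0 = z := by
        rw [hγ1]; simp only; rw [ht0, hz2]
      have e2' : γ2 t0 = w := by
        rw [hγ2]; simp only; rw [← hωt, hw2]
      simp only
      rw [e1', e2']
    have h3 : (fun t => (γ1 t * γ2 t, gg f1 (γ1 t))) '' D ⊆ J f1 f2 m0 \ T := by
      rintro _ ⟨t, ht, rfl⟩
      exact ht.2.2.2.2
    have h4 := h1.subset_connectedComponentIn h2 h3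
    rw [hK]
    rwa [← connectedComponentIn_eq hKm] at h4
  refine ⟨γ1, γ2, ρ, hρ0, fun t ht => (hd1 t ht).differentiableWithinAt,
    fun t ht => (hd2 t ht).differentiableWithinAt, ?_, ?_, ?_, ?_⟩
  · rw [hγ1]; simp only; rw [zero_pow (by omega), hψ1]
  · rw [hγ2]; simp only; rw [zero_pow (by omega), mul_zero, hψ2]
  · intro t ht
    have hcl : t ∈ closure D := hDden ht
    have hct : ContinuousAt (fun t => (γ1 t, γ2 t)) t :=
      (hd1 t ht).continuousAt.prodMk (hd2 t ht).continuousAt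
    have h1 := mem_closure_image hct hcl
    refine closure_mono ?_ h1
    rintro _ ⟨s, hs, rfl⟩
    exact ⟨hs.2.1, hs.2.2.1, hs.2.2.2.1, himg ⟨s, hs, rfl⟩⟩
  · intro hev
    have h1 : ∀ᶠ t in 𝓝 (0 : ℂ), t = 0 := by
      filter_upwards [hev, isOpen_ball.mem_nhds (mem_ball_self hρ0)] with t ht htb
      have h2 := (hb1 _ (hm1 t htb)).2.1
      have h3 : ψ1 (t ^ e2) = q.1 := ht
      rw [h3, hφ1] at h2
      exact pow_eq_zero_iff (by omega) |>.1 h2.symm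
    have h2 : ({0} : Set ℂ) ∈ 𝓝 (0 : ℂ) := h1
    exact (NormedField.nhdsNE_neBot (0 : ℂ)).ne (by
      rw [nhdsWithin, inf_eq_bot_iff]
      exact ⟨{0}, h2, {0}ᶜ, mem_principal_self _, by simp⟩)

/-! ### the minimum of `|z w|` -/

/-- a nonnegative combination of `log |γ1|` and `log |γ2|` with a local minimum is constant -/
theorem local_const {γ1 γ2 : ℂ → ℂ} (hd1 : ∀ᶠ t in 𝓝 (0 : ℂ), DifferentiableAt ℂ γ1 t)
    (hd2 : ∀ᶠ t in 𝓝 (0 : ℂ), DifferentiableAt ℂ γ2 t) (h1 : γ1 0 ≠ 0) (h2 : γ2 0 ≠ 0) (a b : ℝ)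
    (hmin : ∀ᶠ t in 𝓝 (0 : ℂ), a * Real.log ‖γ1 0‖ + b * Real.log ‖γ2 0‖ ≤
      a * Real.log ‖γ1 t‖ + b * Real.log ‖γ2 t‖) :
    ∀ᶠ t in 𝓝 (0 : ℂ), a * Real.log ‖γ1 t‖ + b * Real.log ‖γ2 t‖ =
      a * Real.log ‖γ1 0‖ + b * Real.log ‖γ2 0‖ := by
  have key : ∀ (γ : ℂ → ℂ), (∀ᶠ t in 𝓝 (0 : ℂ), DifferentiableAt ℂ γ t) → γ 0 ≠ 0 →
      (∀ᶠ t in 𝓝 (0 : ℂ), DifferentiableAt ℂ (fun t => Complex.log (γ t / γ 0)) t ∧
        (Complex.log (γ t / γ 0)).re = Real.log ‖γ t‖ - Real.log ‖γ 0‖) := by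
    intro γ hd h0
    have hc : ContinuousAt γ 0 := hd.self_of_nhds.continuousAt
    have hc2 : Tendsto (fun t => γ t / γ 0) (𝓝 0) (𝓝 1) := by
      have := hc.tendsto.div_const (γ 0)
      rwa [div_self h0] at this
    have hs : ∀ᶠ t in 𝓝 (0 : ℂ), γ t / γ 0 ∈ Complex.slitPlane :=
      hc2.eventually (Complex.isOpen_slitPlane.mem_nhds Complex.one_mem_slitPlane)
    filter_upwards [hd, hs, hc.eventually_ne h0] with t a b c
    refine ⟨(a.div_const _).clog b, ?_⟩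
    rw [Complex.log_re, norm_div, Real.log_div (norm_ne_zero_iff.2 c) (norm_ne_zero_iff.2 h0)]
  set G : ℂ → ℂ := fun t =>
    Complex.exp (-((a : ℂ) * Complex.log (γ1 t / γ1 0) + (b : ℂ) * Complex.log (γ2 t / γ2 0)))
    with hG
  have hGn : ∀ᶠ t in 𝓝 (0 : ℂ), ‖G t‖ = Real.exp (-((a * Real.log ‖γ1 t‖ + b * Real.log ‖γ2 t‖) -
      (a * Real.log ‖γ1 0‖ + b * Real.log ‖γ2 0‖))) := by
    filter_upwards [key γ1 hd1 h1, key γ2 hd2 h2] with t k1 k2
    rw [hG]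
    simp only
    rw [Complex.norm_exp, Complex.neg_re, Complex.add_re, Complex.re_ofReal_mul,
      Complex.re_ofReal_mul, k1.2, k2.2]
    congr 1
    ring
  have hGd : ∀ᶠ t in 𝓝 (0 : ℂ), DifferentiableAt ℂ G t := by
    filter_upwards [key γ1 hd1 h1, key γ2 hd2 h2] with t k1 k2
    exact (((k1.1.const_mul _).add (k2.1.const_mul _)).neg).cexp
  have hG0 : ‖G 0‖ = 1 := by
    rw [hGn.self_of_nhds]
    simp
  have hloc : IsLocalMax (norm ∘ G) 0 := by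
    filter_upwards [hGn, hmin] with t k1 k2
    simp only [Function.comp]
    rw [hG0, k1]
    apply Real.exp_le_one_iff.2
    linarith
  have hconst := Complex.eventually_eq_of_isLocalMax_norm hGd hloc
  filter_upwards [hconst, hGn] with t k1 k2
  rw [k1, hG0] at k2
  have h3 := (Real.exp_eq_one_iff _).1 k2.symm
  linarith

/-- there are discs through all points -/
def Discs (Z : Set (ℂ × ℂ)) : Prop :=
  ∀ q ∈ Z, ∃ γ1 γ2 : ℂ → ℂ, ∃ ρ : ℝ, 0 < ρ ∧ DifferentiableOn ℂ γ1 (ball 0 ρ) ∧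
      DifferentiableOn ℂ γ2 (ball 0 ρ) ∧ γ1 0 = q.1 ∧ γ2 0 = q.2 ∧
      (∀ t ∈ ball (0 : ℂ) ρ, (γ1 t, γ2 t) ∈ Z) ∧ ¬ ∀ᶠ t in 𝓝 (0 : ℂ), γ1 t = q.1

/-- the exhaustion -/
noncomputable def vv (ε : ℝ) (p : ℂ × ℂ) : ℝ :=
  Real.log ‖p.1‖ + Real.log ‖p.2‖ + ε * |Real.log ‖p.1‖ - Real.log ‖p.2‖|

theorem ne_of_norm {c : ℝ} (hc : 0 < c) {p : ℂ × ℂ} (h : c ≤ ‖p.1 * p.2‖) :
    p.1 ≠ 0 ∧ p.2 ≠ 0 := by
  have h1 : p.1 * p.2 ≠ 0 := by
    intro h0
    rw [h0, norm_zero] at h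
    linarith
  exact ⟨left_ne_zero_of_mul h1, right_ne_zero_of_mul h1⟩

theorem vv_cont {Z : Set (ℂ × ℂ)} {c : ℝ} (hc : 0 < c) (hZ : ∀ p ∈ Z, c ≤ ‖p.1 * p.2‖) (ε : ℝ) :
    ContinuousOn (vv ε) Z := by
  have h1 : ContinuousOn (fun p : ℂ × ℂ => Real.log ‖p.1‖) Z := by
    apply ContinuousOn.log
    · exact (continuous_norm.comp continuous_fst).continuousOn
    · intro p hp
      exact norm_ne_zero_iff.2 (ne_of_norm hc (hZ p hp)).1
  have h2 : ContinuousOn (fun p : ℂ × ℂ => Real.log ‖p.2‖) Z := by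
    apply ContinuousOn.log
    · exact (continuous_norm.comp continuous_snd).continuousOn
    · intro p hp
      exact norm_ne_zero_iff.2 (ne_of_norm hc (hZ p hp)).2
  exact (h1.add h2).add (continuousOn_const.mul (h1.sub h2).abs)

theorem log_sum {p : ℂ × ℂ} (h1 : p.1 ≠ 0) (h2 : p.2 ≠ 0) :
    Real.log ‖p.1‖ + Real.log ‖p.2‖ = Real.log ‖p.1 * p.2‖ := by
  rw [norm_mul, Real.log_mul (norm_ne_zero_iff.2 h1) (norm_ne_zero_iff.2 h2)]

theorem vv_compact {Z : Set (ℂ × ℂ)} (hcl : IsClosed Z) {c : ℝ} (hc : 0 < c)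
    (hZ : ∀ p ∈ Z, c ≤ ‖p.1 * p.2‖) {ε : ℝ} (hε : 0 < ε) (C : ℝ) :
    IsCompact {p | p ∈ Z ∧ vv ε p ≤ C} := by
  have hclosed : IsClosed {p | p ∈ Z ∧ vv ε p ≤ C} := by
    have := (vv_cont hc hZ ε).preimage_isClosed_of_isClosed hcl (isClosed_Iic (a := C))
    exact this
  set R : ℝ := (C + (C - Real.log c) / ε) / 2 with hR
  refine (isCompact_closedBall (0 : ℂ × ℂ) (Real.exp R)).of_isClosed_subset hclosed ?_
  rintro p ⟨hpZ, hpC⟩
  obtain ⟨h1, h2⟩ := ne_of_norm hc (hZ p hpZ)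
  have hsum : Real.log c ≤ Real.log ‖p.1‖ + Real.log ‖p.2‖ := by
    rw [log_sum h1 h2]
    exact Real.log_le_log hc (hZ p hpZ)
  unfold vv at hpC
  have habs0 : 0 ≤ |Real.log ‖p.1‖ - Real.log ‖p.2‖| := abs_nonneg _
  have hs2 : Real.log ‖p.1‖ + Real.log ‖p.2‖ ≤ C := by
    have := mul_nonneg hε.le habs0
    linarith
  have habs : |Real.log ‖p.1‖ - Real.log ‖p.2‖| ≤ (C - Real.log c) / ε := by
    rw [le_div_iff₀ hε]
    linarith
  have hab := abs_le.1 habs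
  have e1 : Real.log ‖p.1‖ ≤ R := by rw [hR]; linarith [hab.2]
  have e2 : Real.log ‖p.2‖ ≤ R := by rw [hR]; linarith [hab.1]
  rw [mem_closedBall_zero_iff, Prod.norm_def]
  refine max_le ?_ ?_
  · rwa [Real.log_le_iff_le_exp (norm_pos_iff.2 h1)] at e1
  · rwa [Real.log_le_iff_le_exp (norm_pos_iff.2 h2)] at e2

theorem vv_min {Z : Set (ℂ × ℂ)} (hcl : IsClosed Z) (hne : Z.Nonempty) {c : ℝ} (hc : 0 < c)
    (hZ : ∀ p ∈ Z, c ≤ ‖p.1 * p.2‖) (hdisc : Discs Z) {ε : ℝ} (hε : 0 < ε) :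
    ∃ q ∈ Z, Real.log ‖q.1‖ = Real.log ‖q.2‖ ∧ ∀ p ∈ Z, vv ε q ≤ vv ε p := by
  obtain ⟨p0, hp0⟩ := hne
  have hcomp := vv_compact hcl hc hZ hε (vv ε p0)
  obtain ⟨q0, hq0, hq0min⟩ := hcomp.exists_isMinOn ⟨p0, hp0, le_rfl⟩
    ((vv_cont hc hZ ε).mono fun p hp => hp.1)
  have hmin0 : ∀ p ∈ Z, vv ε q0 ≤ vv ε p := by
    intro p hp
    by_cases h : vv ε p ≤ vv ε p0
    · exact hq0min (show p ∈ {p | p ∈ Z ∧ vv ε p ≤ vv ε p0} from ⟨hp, h⟩)
    · push Not at h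
      exact hq0.2.trans h.le
  have hcomp1 := vv_compact hcl hc hZ hε (vv ε q0)
  obtain ⟨q, hq, hqmax⟩ := hcomp1.exists_isMaxOn ⟨q0, hq0.1, le_rfl⟩
    (continuous_norm.comp continuous_fst).continuousOn
  have hqmin : ∀ p ∈ Z, vv ε q ≤ vv ε p := fun p hp => hq.2.trans (hmin0 p hp)
  refine ⟨q, hq.1, ?_, hqmin⟩
  by_contra hA
  obtain ⟨γ1, γ2, ρ, hρ, hd1, hd2, hg1, hg2, hin, hnc⟩ := hdisc q hq.1
  obtain ⟨hq1, hq2⟩ := ne_of_norm hc (hZ q hq.1)
  have hbn : ball (0 : ℂ) ρ ∈ 𝓝 (0 : ℂ) := isOpen_ball.mem_nhds (mem_ball_self hρ)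
  have hd1' : ∀ᶠ t in 𝓝 (0 : ℂ), DifferentiableAt ℂ γ1 t := by
    filter_upwards [hbn] with t ht
    exact (hd1 t ht).differentiableAt (isOpen_ball.mem_nhds ht)
  have hd2' : ∀ᶠ t in 𝓝 (0 : ℂ), DifferentiableAt ℂ γ2 t := by
    filter_upwards [hbn] with t ht
    exact (hd2 t ht).differentiableAt (isOpen_ball.mem_nhds ht)
  have hc1 : ContinuousAt γ1 0 := hd1'.self_of_nhds.continuousAt
  have hc2 : ContinuousAt γ2 0 := hd2'.self_of_nhds.continuousAt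
  have hl : ContinuousAt (fun t => Real.log ‖γ1 t‖ - Real.log ‖γ2 t‖) 0 := by
    apply ContinuousAt.sub
    · exact hc1.norm.log (norm_ne_zero_iff.2 (by rw [hg1]; exact hq1))
    · exact hc2.norm.log (norm_ne_zero_iff.2 (by rw [hg2]; exact hq2))
  -- sign of the difference
  obtain ⟨σ, hσ⟩ : ∃ σ : ℝ, ∀ᶠ t in 𝓝 (0 : ℂ), vv ε (γ1 t, γ2 t) =
      (1 + σ * ε) * Real.log ‖γ1 t‖ + (1 - σ * ε) * Real.log ‖γ2 t‖ := by
    have h0 : Real.log ‖γ1 0‖ - Real.log ‖γ2 0‖ ≠ 0 := by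
      rw [hg1, hg2]
      exact sub_ne_zero.2 hA
    rcases lt_or_gt_of_ne h0 with h | h
    · refine ⟨-1, ?_⟩
      filter_upwards [hl.eventually (gt_mem_nhds h)] with t ht
      unfold vv
      simp only
      rw [abs_of_neg ht]
      ring
    · refine ⟨1, ?_⟩
      filter_upwards [hl.eventually (lt_mem_nhds h)] with t ht
      unfold vv
      simp only
      rw [abs_of_pos ht]
      ring
  have hq00 : (γ1 0, γ2 0) = q := by rw [hg1, hg2]
  have hconst := local_const hd1' hd2' (by rw [hg1]; exact hq1) (by rw [hg2]; exact hq2)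
    (1 + σ * ε) (1 - σ * ε) (by
      filter_upwards [hσ, hbn] with t ht htb
      rw [← ht, ← hσ.self_of_nhds, hq00]
      exact hqmin _ (hin t htb))
  apply hnc
  have hloc : IsLocalMax (norm ∘ γ1) 0 := by
    filter_upwards [hconst, hσ, hbn] with t k1 k2 k3
    simp only [Function.comp]
    have h3 : vv ε (γ1 t, γ2 t) ≤ vv ε q0 := by
      rw [k2, k1, ← hσ.self_of_nhds, hq00]
      exact hq.2
    have h4 := hqmax (show (γ1 t, γ2 t) ∈ {p | p ∈ Z ∧ vv ε p ≤ vv ε q0} from ⟨hin t k3, h3⟩)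
    simp only [mem_ofPred_eq, Function.comp] at h4
    rw [hg1]
    exact h4
  have h5 := Complex.eventually_eq_of_isLocalMax_norm hd1' hloc
  filter_upwards [h5] with t ht
  rw [ht, hg1]

theorem min_attained {Z : Set (ℂ × ℂ)} (hcl : IsClosed Z) (hne : Z.Nonempty) {c : ℝ} (hc : 0 < c)
    (hZ : ∀ p ∈ Z, c ≤ ‖p.1 * p.2‖) (hdisc : Discs Z) :
    ∃ q ∈ Z, ∀ p ∈ Z, ‖q.1 * q.2‖ ≤ ‖p.1 * p.2‖ := by
  have hpos : ∀ n : ℕ, (0 : ℝ) < 1 / ((n : ℝ) + 1) := fun n => by positivity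
  choose q hqZ hqeq hqmin using fun n : ℕ => vv_min hcl hne hc hZ hdisc (hpos n)
  obtain ⟨p0, hp0⟩ := hne
  have hvq : ∀ n (ε : ℝ), vv ε (q n) = Real.log ‖(q n).1‖ + Real.log ‖(q n).2‖ := by
    intro n ε
    unfold vv
    rw [hqeq n, sub_self, abs_zero, mul_zero, add_zero]
  have hcomp := vv_compact hcl hc hZ one_pos (vv 1 p0)
  have hmem : ∀ n, q n ∈ {p | p ∈ Z ∧ vv 1 p ≤ vv 1 p0} := by
    intro n
    refine ⟨hqZ n, ?_⟩
    rw [hvq n 1, ← hvq n (1 / ((n : ℝ) + 1))]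
    refine (hqmin n p0 hp0).trans ?_
    unfold vv
    have h1 : 1 / ((n : ℝ) + 1) ≤ 1 := by
      rw [div_le_one (by positivity)]
      linarith [n.cast_nonneg (α := ℝ)]
    have h2 := mul_le_mul_of_nonneg_right h1
      (abs_nonneg (Real.log ‖p0.1‖ - Real.log ‖p0.2‖))
    linarith
  obtain ⟨qs, hqs, θ, hθ, hlim⟩ := hcomp.tendsto_subseq hmem
  refine ⟨qs, hqs.1, fun p hp => ?_⟩
  obtain ⟨hq1, hq2⟩ := ne_of_norm hc (hZ qs hqs.1)
  obtain ⟨hp1, hp2⟩ := ne_of_norm hc (hZ p hp)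
  have hA : Tendsto (fun n => vv 0 (q (θ n))) atTop (𝓝 (vv 0 qs)) := by
    have h1 := (vv_cont hc hZ 0) qs hqs.1
    exact h1.tendsto.comp (tendsto_nhdsWithin_iff.2 ⟨hlim, Eventually.of_forall fun n =>
      hqZ (θ n)⟩)
  have hB : Tendsto (fun n => vv (1 / (((θ n : ℕ) : ℝ) + 1)) p) atTop (𝓝 (vv 0 p)) := by
    have h1 : Tendsto (fun n : ℕ => 1 / ((n : ℝ) + 1)) atTop (𝓝 0) :=
      tendsto_one_div_add_atTop_nhds_zero_nat
    have h2 := h1.comp hθ.tendsto_atTop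
    unfold vv
    exact tendsto_const_nhds.add (h2.mul_const _)
  have hle : vv 0 qs ≤ vv 0 p := by
    refine le_of_tendsto_of_tendsto hA hB (Eventually.of_forall fun n => ?_)
    simp only
    rw [hvq (θ n) 0, ← hvq (θ n) (1 / (((θ n : ℕ) : ℝ) + 1))]
    exact hqmin (θ n) p hp
  unfold vv at hle
  rw [zero_mul, zero_mul, add_zero, add_zero, log_sum hq1 hq2, log_sum hp1 hp2] at hle
  exact (Real.log_le_log_iff (norm_pos_iff.2 (mul_ne_zero hq1 hq2))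
    (norm_pos_iff.2 (mul_ne_zero hp1 hp2))).1 hle

/-! ### the end of the argument -/

/-- the case of a constant product -/
theorem const_product {f1 f2 : ℂ → ℂ} (hf1 : Differentiable ℂ f1) (hf2 : Differentiable ℂ f2)
    {m : ℕ} {h1 h2 : ℂ → ℂ} (hh1 : Differentiable ℂ h1) (hh2 : Differentiable ℂ h2)
    (hf1h : ∀ z, f1 z = z ^ m * h1 z) (hf2h : ∀ z, f2 z = z ^ m * h2 z) (h20 : h2 0 ≠ 0)
    {z1 κ : ℂ} (hz1 : z1 ≠ 0) (hκ : κ ≠ 0)
    (hev : ∀ᶠ z in 𝓝 z1, z * deriv f1 z * f2 (κ / z) - κ / z * deriv f2 (κ / z) * f1 z = 0) :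
    ∃ c, ∀ z, f1 z = c * z ^ m := by
  have hopen : IsOpen ({0}ᶜ : Set ℂ) := isOpen_compl_singleton
  have hpre : IsPreconnected ({0}ᶜ : Set ℂ) := by
    have hr : 1 < Module.rank ℝ ℂ := by
      rw [Complex.rank_real_complex]; norm_num
    exact (isConnected_compl_singleton_of_one_lt_rank hr 0).isPreconnected
  have hinv : ∀ z : ℂ, z ≠ 0 → AnalyticAt ℂ (fun z : ℂ => κ / z) z := fun z hz =>
    analyticAt_const.div analyticAt_id hz
  have hall : ∀ z : ℂ, z ≠ 0 →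
      z * deriv f1 z * f2 (κ / z) - κ / z * deriv f2 (κ / z) * f1 z = 0 := by
    have hA : AnalyticOnNhd ℂ
        (fun z => z * deriv f1 z * f2 (κ / z) - κ / z * deriv f2 (κ / z) * f1 z) {0}ᶜ := by
      intro z hz
      have hz' : z ≠ 0 := hz
      have a1 : AnalyticAt ℂ (fun z => f2 (κ / z)) z := (an hf2 _).fun_comp (hinv z hz')
      have a2 : AnalyticAt ℂ (fun z => deriv f2 (κ / z)) z := (an hf2 _).deriv.fun_comp (hinv z hz')
      exact ((analyticAt_id.mul (an hf1 z).deriv).mul a1).sub (((hinv z hz').mul a2).mul (an hf1 z))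
    have hB : AnalyticOnNhd ℂ (fun _ : ℂ => (0 : ℂ)) ({0}ᶜ : Set ℂ) :=
      fun z _ => analyticAt_const
    have h3 := hA.eqOn_of_preconnected_of_eventuallyEq hB hpre (z₀ := z1) hz1 hev
    intro z hz
    exact h3 hz
  have hder : ∀ z : ℂ, z ≠ 0 → HasDerivAt (fun z => f1 z * f2 (κ / z)) 0 z := by
    intro z hz
    have d1 : HasDerivAt f1 (deriv f1 z) z := (hf1 z).hasDerivAt
    have d2 : HasDerivAt (fun z : ℂ => κ / z) (-κ / z ^ 2) z := by
      have d3 := (hasDerivAt_inv hz).const_mul κ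
      refine (d3.congr_deriv ?_).congr_of_eventuallyEq ?_
      · field_simp
      · exact Eventually.of_forall fun z => div_eq_mul_inv _ _
    have d4 : HasDerivAt (fun z => f2 (κ / z)) (deriv f2 (κ / z) * (-κ / z ^ 2)) z :=
      HasDerivAt.comp z (hf2 _).hasDerivAt d2
    refine (d1.mul d4).congr_deriv ?_
    have h3 := hall z hz
    have h4 : z * (deriv f1 z * f2 (κ / z) + f1 z * (deriv f2 (κ / z) * (-κ / z ^ 2))) = 0 := by
      rw [← h3]
      field_simp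
      ring
    exact (mul_eq_zero.1 h4).resolve_left hz
  obtain ⟨L, hL⟩ := hopen.exists_is_const_of_deriv_eq_zero hpre
    (f := fun z => f1 z * f2 (κ / z))
    (fun z hz => (hder z hz).differentiableAt.differentiableWithinAt)
    (fun z hz => (hder z hz).deriv)
  have hprod : ∀ z : ℂ, z ≠ 0 → κ ^ m * (h1 z * h2 (κ / z)) = L := by
    intro z hz
    have h3 := hL z hz
    rw [hf1h, hf2h] at h3
    rw [← h3, div_pow]
    have h4 : z ^ m ≠ 0 := pow_ne_zero m hz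
    field_simp
  have hlim0 : Tendsto (fun z : ℂ => κ / z) (cocompact ℂ) (𝓝 0) := by
    have h3 : Tendsto (fun z : ℂ => z⁻¹) (cocompact ℂ) (𝓝 0) := tendsto_inv₀_cobounded.mono_left
      (by rw [← Metric.cobounded_eq_cocompact])
    have h4 := h3.const_mul κ
    rw [mul_zero] at h4
    exact h4.congr fun z => (div_eq_mul_inv _ _).symm
  have hlim1 : Tendsto (fun z : ℂ => h2 (κ / z)) (cocompact ℂ) (𝓝 (h2 0)) :=
    (hh2.continuous.tendsto 0).comp hlim0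
  have hne : ∀ᶠ z : ℂ in cocompact ℂ, h2 (κ / z) ≠ 0 := hlim1.eventually (isOpen_ne.mem_nhds h20)
  have hne0 : ∀ᶠ z : ℂ in cocompact ℂ, z ≠ 0 := by
    have h3 : ({0} : Set ℂ)ᶜ ∈ cocompact ℂ := isCompact_singleton.compl_mem_cocompact
    exact h3
  have hlim2 : Tendsto h1 (cocompact ℂ) (𝓝 (L / κ ^ m / h2 0)) := by
    have h3 : Tendsto (fun z : ℂ => L / κ ^ m / h2 (κ / z)) (cocompact ℂ)
        (𝓝 (L / κ ^ m / h2 0)) := tendsto_const_nhds.div hlim1 h20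
    refine h3.congr' ?_
    filter_upwards [hne, hne0] with z k1 k2
    rw [← hprod z k2]
    have hκm : κ ^ m ≠ 0 := pow_ne_zero m hκ
    field_simp
  have hc := hh1.eq_const_of_tendsto_cocompact hlim2
  refine ⟨L / κ ^ m / h2 0, fun z => ?_⟩
  rw [hf1h, hc]
  simp only [Function.const]
  ring

/-- `f1(q1) ≠ 0` and `f2(q2) = 0` cannot both happen at a limit point -/
theorem cross {f1 f2 : ℂ → ℂ} (hf1 : Differentiable ℂ f1)
    {q : ℂ × ℂ} (h1 : f1 q.1 ≠ 0) (h2 : f2 q.2 = 0) (L2 : Loc f2 q.2 (fun τ => τ⁻¹))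
    (hq : q ∈ closure {p : ℂ × ℂ | f1 p.1 ≠ 0 ∧ f2 p.2 ≠ 0 ∧ gg f1 p.1 = gg f2 p.2}) : False := by
  obtain ⟨e, φ, ψ, ρ, he, hρ, hφc, hφ, hψ, hn, -⟩ := L2
  have hF : Tendsto (fun p : ℂ × ℂ => gg f1 p.1 * φ p.2 ^ e) (𝓝 q) (𝓝 0) := by
    have c1 : Tendsto (fun p : ℂ × ℂ => gg f1 p.1) (𝓝 q) (𝓝 (gg f1 q.1)) :=
      (gg_cont hf1 h1).tendsto.comp (continuous_fst.tendsto q)
    have c2 : Tendsto (fun p : ℂ × ℂ => φ p.2 ^ e) (𝓝 q) (𝓝 0) := by
      have c3 : Tendsto (fun w => φ w ^ e) (𝓝 q.2) (𝓝 0) := by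
        have c4 := hφc.tendsto.pow e
        rwa [hφ, zero_pow (by omega)] at c4
      exact c3.comp (continuous_snd.tendsto q)
    have c5 := c1.mul c2
    rwa [mul_zero] at c5
  have hev : ∀ᶠ p : ℂ × ℂ in 𝓝 q, gg f1 p.1 * φ p.2 ^ e ≠ 1 :=
    hF.eventually (isOpen_ne.mem_nhds zero_ne_one)
  have hn' : ∀ᶠ p : ℂ × ℂ in 𝓝 q, f2 p.2 ≠ 0 → ψ (φ p.2) = p.2 ∧ gg f2 p.2 = (φ p.2 ^ e)⁻¹ :=
    (continuous_snd.tendsto q).eventually hn
  obtain ⟨p, ⟨k1, k2⟩, k3, k4, k5⟩ := mem_closure_iff_nhds.1 hq _ (hev.and hn')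
  obtain ⟨k6, k7⟩ := k2 k4
  have hφne : φ p.2 ≠ 0 := by
    intro h0
    rw [h0, hψ] at k6
    rw [← k6] at k4
    exact k4 h2
  apply k1
  rw [k5, k7]
  exact inv_mul_cancel₀ (pow_ne_zero e hφne)

/-! ### the problem -/

open ComplexConjugate in
/-- The fibre `F(s,a)`: pairs `(z,w)` with `zw = s`, `z f'(z)/f(z) = a` (and `f(z) ≠ 0`), and
`conj (w̄ f'(w̄)/f(w̄)) = a` (and `f(w̄) ≠ 0`). -/
def Fib (f : ℂ → ℂ) (s a : ℂ) : Set (ℂ × ℂ) :=
  {p | p.1 * p.2 = s ∧ (f p.1 ≠ 0 ∧ p.1 * deriv f p.1 / f p.1 = a) ∧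
    (f (conj p.2) ≠ 0 ∧ conj (conj p.2 * deriv f (conj p.2) / f (conj p.2)) = a)}

/-- The set `I`: pairs `(s,a)` with `s ≠ 0`, `a ≠ 0`, `a ≠ m₀` and `F(s,a)` nonempty; `m₀` is the
order of vanishing of `f` at `0`. -/
def II (f : ℂ → ℂ) : Set (ℂ × ℂ) :=
  {q | q.1 ≠ 0 ∧ q.2 ≠ 0 ∧ q.2 ≠ (analyticOrderNatAt f 0 : ℂ) ∧ (Fib f q.1 q.2).Nonempty}

/-- `T` is admissible for `f`: it is countable, every point of `I` has a neighbourhood meeting `T`
in a finite set, and `(s,a) ↦ |F(s,a)|` is locally constant on `I \ T`. -/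
def Admissible (f : ℂ → ℂ) (T : Set (ℂ × ℂ)) : Prop :=
  T.Countable ∧ (∀ q ∈ II f, ∃ U ∈ 𝓝 q, (T ∩ U).Finite) ∧
  ∀ q ∈ II f \ T, ∃ U ∈ 𝓝 q, ∀ q' ∈ U ∩ (II f \ T),
    (Fib f q'.1 q'.2).encard = (Fib f q.1 q.2).encard

open ComplexConjugate in
/-- the conjugate function -/
noncomputable def cf (f : ℂ → ℂ) : ℂ → ℂ := fun w => conj (f (conj w))

open ComplexConjugate in
theorem cf_hasDerivAt {f : ℂ → ℂ} (hf : Differentiable ℂ f) (w : ℂ) :
    HasDerivAt (cf f) (conj (deriv f (conj w))) w := by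
  have h1 : HasDerivAt f (deriv f (conj w)) (conj w) := (hf _).hasDerivAt
  have h2 := h1.conj_conj
  rw [Complex.conj_conj] at h2
  exact h2

theorem cf_diff {f : ℂ → ℂ} (hf : Differentiable ℂ f) : Differentiable ℂ (cf f) :=
  fun w => (cf_hasDerivAt hf w).differentiableAt

open ComplexConjugate in
theorem gg_cf {f : ℂ → ℂ} (hf : Differentiable ℂ f) (w : ℂ) :
    gg (cf f) w = conj (conj w * deriv f (conj w) / f (conj w)) := by
  unfold gg
  rw [(cf_hasDerivAt hf w).deriv, map_div₀, map_mul, Complex.conj_conj]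
  rfl

open ComplexConjugate in
theorem cf_ne {f : ℂ → ℂ} (w : ℂ) : cf f w ≠ 0 ↔ f (conj w) ≠ 0 := by
  unfold cf
  rw [Ne, map_eq_zero]

theorem II_eq {f : ℂ → ℂ} (hf : Differentiable ℂ f) :
    II f = J f (cf f) (analyticOrderNatAt f 0 : ℂ) := by
  ext q
  unfold II J
  simp only [mem_ofPred_eq]
  constructor
  · rintro ⟨h1, h2, h3, p, k1, k2, k3, k4⟩
    refine ⟨h1, h2, h3, p, k1, k2, (cf_ne _).2 k3, ?_⟩
    rw [gg_cf hf, k4]
  · rintro ⟨h1, h2, h3, p, k1, k2, k3, k4⟩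
    refine ⟨h1, h2, h3, p, k1, k2, (cf_ne _).1 k3, ?_⟩
    rw [← gg_cf hf, k4]

open ComplexConjugate in
theorem NM.cf {f : ℂ → ℂ} (h : NM f) : NM (cf f) := by
  rintro ⟨c, m, hcm⟩
  apply h
  refine ⟨conj c, m, fun z => ?_⟩
  have h1 := hcm (conj z)
  unfold SmallProducts.cf at h1
  rw [Complex.conj_conj] at h1
  have h2 := congrArg conj h1
  rw [Complex.conj_conj, map_mul, map_pow, Complex.conj_conj] at h2
  exact h2

open ComplexConjugate in
/-- **Q1 is true.** For every entire `f` that is not a monomial, every admissible `T`, every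
`x ∈ I \ T` and every `η > 0`, the connected component of `x` in `I \ T` contains a point `(s,a)`
with `|s| < η²`. -/
theorem result (f : ℂ → ℂ) (hf : Differentiable ℂ f)
    (hnm : ¬ ∃ (c : ℂ) (m : ℕ), ∀ z, f z = c * z ^ m)
    (T : Set (ℂ × ℂ)) (hT : Admissible f T) (x : ℂ × ℂ) (hx : x ∈ II f \ T)
    (η : ℝ) (hη : 0 < η) :
    ∃ y ∈ connectedComponentIn (II f \ T) x, ‖y.1‖ < η ^ 2 := by
  by_contra hcon
  push Not at hcon
  have hη2 : 0 < η ^ 2 := pow_pos hη 2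
  have hTc : T.Countable := hT.1
  have hNM : NM f := hnm
  have hNM2 : NM (cf f) := hNM.cf
  have hf2 : Differentiable ℂ (cf f) := cf_diff hf
  rw [II_eq hf] at hcon hx
  set m0 : ℂ := (analyticOrderNatAt f 0 : ℂ) with hm0
  set K := connectedComponentIn (J f (cf f) m0 \ T) x with hK
  set S := SS f (cf f) K with hS
  set Z := closure S with hZdef
  have hxK : x ∈ K := mem_connectedComponentIn hx
  have hZne : Z.Nonempty := by
    obtain ⟨-, -, -, p, k1, ⟨k2, k3⟩, k4, k5⟩ := hx.1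
    refine ⟨p, subset_closure ⟨k2, k4, by rw [k3, k5], ?_⟩⟩
    rw [k1, k3]
    exact hxK
  have hZlow : ∀ p ∈ Z, η ^ 2 ≤ ‖p.1 * p.2‖ := by
    have hcl : IsClosed {p : ℂ × ℂ | η ^ 2 ≤ ‖p.1 * p.2‖} :=
      isClosed_le continuous_const (continuous_norm.comp (continuous_fst.mul continuous_snd))
    have hsub : S ⊆ {p : ℂ × ℂ | η ^ 2 ≤ ‖p.1 * p.2‖} := fun p hp => hcon _ hp.2.2.2
    exact fun p hp => closure_minimal hsub hcl hp
  have hcf : Continuous f := hf.continuous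
  have hcdf : Continuous (deriv f) := (hf.contDiff (n := 1)).continuous_deriv le_rfl
  have hcf2 : Continuous (cf f) := hf2.continuous
  have hcdf2 : Continuous (deriv (cf f)) := (hf2.contDiff (n := 1)).continuous_deriv le_rfl
  have hZeq : ∀ p ∈ Z, p.1 * deriv f p.1 * cf f p.2 - p.2 * deriv (cf f) p.2 * f p.1 = 0 := by
    have hcl : IsClosed {p : ℂ × ℂ |
        p.1 * deriv f p.1 * cf f p.2 - p.2 * deriv (cf f) p.2 * f p.1 = 0} := by
      apply isClosed_eq _ continuous_const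
      exact ((continuous_fst.mul (hcdf.comp continuous_fst)).mul (hcf2.comp continuous_snd)).sub
        ((continuous_snd.mul (hcdf2.comp continuous_snd)).mul (hcf.comp continuous_fst))
    have hsub : S ⊆ {p : ℂ × ℂ |
        p.1 * deriv f p.1 * cf f p.2 - p.2 * deriv (cf f) p.2 * f p.1 = 0} := by
      rintro p ⟨h1, h2, h3, -⟩
      have h4 : p.1 * deriv f p.1 / f p.1 = p.2 * deriv (cf f) p.2 / cf f p.2 := h3
      rw [div_eq_div_iff h1 h2] at h4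
      show p.1 * deriv f p.1 * cf f p.2 - p.2 * deriv (cf f) p.2 * f p.1 = 0
      rw [h4, sub_self]
    exact fun p hp => closure_minimal hsub hcl hp
  have hdisc : Discs Z := by
    intro q hq
    obtain ⟨hq1, hq2⟩ := ne_of_norm hη2 (hZlow q hq)
    have hqR : q ∈ closure {p : ℂ × ℂ | f p.1 ≠ 0 ∧ cf f p.2 ≠ 0 ∧ gg f p.1 = gg (cf f) p.2} := by
      refine closure_mono ?_ hq
      intro p hp
      exact ⟨hp.1, hp.2.1, hp.2.2.1⟩
    have hqR' : (q.2, q.1) ∈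
        closure {p : ℂ × ℂ | cf f p.1 ≠ 0 ∧ f p.2 ≠ 0 ∧ gg (cf f) p.1 = gg f p.2} := by
      have := map_mem_closure (f := Prod.swap) continuous_swap hqR
        (t := {p : ℂ × ℂ | cf f p.1 ≠ 0 ∧ f p.2 ≠ 0 ∧ gg (cf f) p.1 = gg f p.2})
        (fun p hp => ⟨hp.2.1, hp.1, hp.2.2.symm⟩)
      exact this
    by_cases h1 : f q.1 = 0
    · have h2 : cf f q.2 = 0 := by
        by_contra h2
        exact cross (q := (q.2, q.1)) hf2 h2 h1 (locB hf hNM hq1 h1) hqR'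
      exact disc hf m0 hTc x q (fun τ => τ⁻¹) inv_injective (locB hf hNM hq1 h1)
        (locB hf2 hNM2 hq2 h2) hq
    · have h2 : cf f q.2 ≠ 0 := by
        intro h2
        exact cross hf h1 h2 (locB hf2 hNM2 hq2 h2) hqR
      have hgg : gg f q.1 = gg (cf f) q.2 := by
        have c1 : ContinuousAt (fun p : ℂ × ℂ => gg f p.1) q :=
          ContinuousAt.comp (f := Prod.fst) (gg_cont hf h1) continuous_fst.continuousAt
        have c2 : ContinuousAt (fun p : ℂ × ℂ => gg (cf f) p.2) q :=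
          ContinuousAt.comp (f := Prod.snd) (gg_cont hf2 h2) continuous_snd.continuousAt
        by_contra hne
        have c3 : ∀ᶠ p : ℂ × ℂ in 𝓝 q, gg f p.1 - gg (cf f) p.2 ≠ 0 :=
          (c1.sub c2).eventually_ne (sub_ne_zero.2 hne)
        obtain ⟨p, k1, -, -, k3⟩ := mem_closure_iff_nhds.1 hqR _ c3
        exact k1 (sub_eq_zero.2 k3)
      refine disc hf m0 hTc x q (fun τ => gg f q.1 + τ) (add_right_injective _)
        (locA hf hNM hq1 h1) ?_ hq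
      rw [hgg]
      exact locA hf2 hNM2 hq2 h2
  obtain ⟨q, hqZ, hqmin⟩ := min_attained isClosed_closure hZne hη2 hZlow hdisc
  obtain ⟨hq1, hq2⟩ := ne_of_norm hη2 (hZlow q hqZ)
  obtain ⟨γ1, γ2, ρ, hρ, hd1, hd2, hg1, hg2, hin, hnc⟩ := hdisc q hqZ
  have hbn : ball (0 : ℂ) ρ ∈ 𝓝 (0 : ℂ) := isOpen_ball.mem_nhds (mem_ball_self hρ)
  have hd1' : ∀ᶠ t in 𝓝 (0 : ℂ), DifferentiableAt ℂ γ1 t := by
    filter_upwards [hbn] with t ht
    exact (hd1 t ht).differentiableAt (isOpen_ball.mem_nhds ht)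
  have hd2' : ∀ᶠ t in 𝓝 (0 : ℂ), DifferentiableAt ℂ γ2 t := by
    filter_upwards [hbn] with t ht
    exact (hd2 t ht).differentiableAt (isOpen_ball.mem_nhds ht)
  have hprod : ∀ᶠ t in 𝓝 (0 : ℂ), γ1 t * γ2 t = q.1 * q.2 := by
    have h1 : ∀ᶠ t in 𝓝 (0 : ℂ), DifferentiableAt ℂ (fun t => γ1 t * γ2 t) t := by
      filter_upwards [hd1', hd2'] with t a b
      exact a.mul b
    have h2 : IsLocalMin (norm ∘ fun t => γ1 t * γ2 t) 0 := by
      filter_upwards [hbn] with t ht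
      simp only [Function.comp]
      rw [hg1, hg2]
      exact hqmin _ (hin t ht)
    rcases Complex.eventually_eq_or_eq_zero_of_isLocalMin_norm h1 h2 with h3 | h3
    · rw [hg1, hg2] at h3
      exact h3
    · rw [hg1, hg2] at h3
      exact absurd h3 (mul_ne_zero hq1 hq2)
  -- the image of `γ1` is a neighbourhood of `q.1`
  have hopen : 𝓝 q.1 ≤ map γ1 (𝓝 0) := by
    have hA : AnalyticAt ℂ γ1 0 :=
      (hd1.analyticOnNhd isOpen_ball) 0 (mem_ball_self hρ)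
    rcases hA.eventually_constant_or_nhds_le_map_nhds with h | h
    · exfalso
      apply hnc
      filter_upwards [h] with t ht
      rw [ht, hg1]
    · rwa [hg1] at h
  have hκ : q.1 * q.2 ≠ 0 := mul_ne_zero hq1 hq2
  have hev : ∀ᶠ z in 𝓝 q.1, z * deriv f z * cf f (q.1 * q.2 / z) -
      q.1 * q.2 / z * deriv (cf f) (q.1 * q.2 / z) * f z = 0 := by
    apply hopen
    rw [mem_map]
    filter_upwards [hprod, hbn] with t h1 h2
    have h3 := hZeq _ (hin t h2)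
    simp only at h3
    obtain ⟨h4, -⟩ := ne_of_norm hη2 (hZlow _ (hin t h2))
    have h5 : γ2 t = q.1 * q.2 / γ1 t := by
      rw [eq_div_iff h4, mul_comm]
      exact h1
    rw [h5] at h3
    exact h3
  obtain ⟨m, h, hh, hh0, hfh⟩ := factor hf hNM.ne
  have hcfh : ∀ z, cf f z = z ^ m * cf h z := by
    intro z
    unfold SmallProducts.cf
    rw [hfh, map_mul, map_pow, Complex.conj_conj]
  have hch0 : cf h 0 ≠ 0 := by
    rw [cf_ne, map_zero]
    exact hh0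
  obtain ⟨c, hc⟩ := const_product hf hf2 hh (cf_diff hh) hfh hcfh hch0 hq1 hκ hev
  exact hnm ⟨c, m, hc⟩

end Pool.Agent.Results.MP_d0f9b4_an.SmallProducts
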